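import Pool.Agent.Helper92.MM.Defs
import Pool.Agent.Helper60.AD.Meas
import Pool.Agent.Helper22.OV.Shift

/-!
# MM-M8: rational centres and dyadic `X` are enough
-/

open MeasureTheory Real Set Filter Topology

set_option autoImplicit false

namespace Pool.Agent.Helper60.MM

open Pool.Agent.Helper22.AE
open Pool.Agent.Helper22.AC (cntc)
open Pool.Agent.Helper22.OV (shf exists_shift)
open Pool.Agent.Helper92.MM
open Pool.Agent.Helper60.AD (pts_finite)

/-- the number of lattice points is a measurable function of the radius -/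
theorem cntc_radius_meas (H : ℝ → ℝ) (c : ℝ × ℝ) : Measurable (fun R : ℝ => cntc H c R) := by
  set S : Set (ℝ × (ℤ × ℤ)) := {p | ∀ θ : ℝ, ((p.2.1 : ℝ) - c.1) * cos θ + ((p.2.2 : ℝ) - c.2) * sin θ ≤ p.1 * H θ} with hS
  have hSm : MeasurableSet S := by
    have h1 : S = ⋃ k : ℤ × ℤ, {R : ℝ | ∀ θ : ℝ, ((k.1 : ℝ) - c.1) * cos θ + ((k.2 : ℝ) - c.2) * sin θ ≤ R * H θ} ×ˢ {k} := by
      ext ⟨R, k⟩
      simp [hS]
    rw [h1]
    refine MeasurableSet.iUnion fun k => MeasurableSet.prod ?_ (measurableSet_singleton k)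
    have h2 : {R : ℝ | ∀ θ : ℝ, ((k.1 : ℝ) - c.1) * cos θ + ((k.2 : ℝ) - c.2) * sin θ ≤ R * H θ} =
        ⋂ θ : ℝ, {R : ℝ | ((k.1 : ℝ) - c.1) * cos θ + ((k.2 : ℝ) - c.2) * sin θ ≤ R * H θ} := by
      ext R
      simp
    rw [h2]
    exact (isClosed_iInter fun θ => isClosed_le continuous_const (by fun_prop)).measurableSet
  have h3 : (fun R : ℝ => cntc H c R) = fun R => (Measure.count (Prod.mk R ⁻¹' S)).toReal := by
    funext R
    have hf : (Prod.mk R ⁻¹' S).Finite := pts_finite H c R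
    rw [Measure.count_apply_finite _ hf, ENNReal.toReal_natCast]
    unfold cntc
    congr 1
    exact (Nat.card_eq_card_finite_toFinset hf)
  rw [h3]
  exact (measurable_measure_prodMk_left hSm).ennreal_toReal

/-- the supremum over the rational centres -/
noncomputable def Wq (J : ℕ) (H : ℝ → ℝ) (R : ℝ) : ENNReal :=
  ⨆ c : ℚ × ℚ, ENNReal.ofReal (|cntc H ((c.1 : ℝ), (c.2 : ℝ)) R - area H * R ^ 2| ^ (2 * J))

theorem Wq_meas (J : ℕ) (H : ℝ → ℝ) : Measurable (Wq J H) := by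
  unfold Wq
  refine Measurable.iSup fun c => ENNReal.measurable_ofReal.comp ?_
  have h1 := cntc_radius_meas H ((c.1 : ℝ), (c.2 : ℝ))
  exact ((h1.sub (by fun_prop)).abs).pow_const _

/-- monotonicity -/
private theorem mono {H : ℝ → ℝ} {c c' : ℝ × ℝ} {R R' : ℝ}
    (h : ∀ θ, (c.1 - c'.1) * cos θ + (c.2 - c'.2) * sin θ ≤ (R' - R) * H θ) : cntc H c R ≤ cntc H c' R' := by
  unfold cntc
  have hf : Finite {k : ℤ × ℤ // ∀ θ : ℝ, ((k.1 : ℝ) - c'.1) * cos θ + ((k.2 : ℝ) - c'.2) * sin θ ≤ R' * H θ} := (pts_finite H c' R').to_subtype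
  refine Nat.cast_le.2 (Nat.card_le_card_of_injective (fun k => ⟨k.1, fun θ => ?_⟩) ?_)
  · have h1 := k.2 θ
    have h2 := h θ
    nlinarith
  · intro a b hab
    exact Subtype.ext (by simpa using hab)

private theorem disc {H : ℝ → ℝ} (h2 : ContDiff ℝ 2 H) (hp : Function.Periodic H (2 * π)) (hr : ∀ θ, 0 < H θ + deriv (deriv H) θ) :
    ∃ (v : ℝ × ℝ) (r : ℝ), 0 < r ∧ ∀ θ, r ≤ H θ + (v.1 * cos θ + v.2 * sin θ) := by
  obtain ⟨v, hv⟩ := exists_shift h2 hp hr
  obtain ⟨x, hx, hmin⟩ := isCompact_Icc.exists_isMinOn (Set.nonempty_Icc.2 two_pi_pos.le) hv.smooth.continuous.continuousOn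
  refine ⟨v, shf H v x, hv.pos x, fun θ => ?_⟩
  obtain ⟨y, hy, hy'⟩ := hv.per.exists_mem_Ico₀ two_pi_pos θ
  have h3 : shf H v x ≤ shf H v y := hmin ⟨hy.1, hy.2.le⟩
  rw [← hy'] at h3
  exact h3

private theorem near {H : ℝ → ℝ} {v : ℝ × ℝ} {r : ℝ} (hr : 0 < r) (h : ∀ θ, r ≤ H θ + (v.1 * cos θ + v.2 * sin θ))
    {t : ℝ} (ht : 0 < t) (c : ℝ × ℝ) :
    (∃ d : ℚ × ℚ, ∀ θ, (c.1 - d.1) * cos θ + (c.2 - d.2) * sin θ ≤ t * H θ) ∧
      ∃ d : ℚ × ℚ, ∀ θ, (d.1 - c.1) * cos θ + (d.2 - c.2) * sin θ ≤ t * H θ := by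
  have key : ∀ (x y θ : ℝ), |x| ≤ t * r / 2 → |y| ≤ t * r / 2 →
      -(t * (v.1 * cos θ + v.2 * sin θ)) + (x * cos θ + y * sin θ) ≤ t * H θ := by
    intro x y θ hx hy
    have h1 : x * cos θ ≤ |x| := by
      calc x * cos θ ≤ |x * cos θ| := le_abs_self _
        _ = |x| * |cos θ| := abs_mul _ _
        _ ≤ |x| * 1 := mul_le_mul_of_nonneg_left (abs_cos_le_one θ) (abs_nonneg _)
        _ = |x| := mul_one _
    have h2 : y * sin θ ≤ |y| := by
      calc y * sin θ ≤ |y * sin θ| := le_abs_self _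
        _ = |y| * |sin θ| := abs_mul _ _
        _ ≤ |y| * 1 := mul_le_mul_of_nonneg_left (abs_sin_le_one θ) (abs_nonneg _)
        _ = |y| := mul_one _
    have h3 : t * r ≤ t * (H θ + (v.1 * cos θ + v.2 * sin θ)) := mul_le_mul_of_nonneg_left (h θ) ht.le
    linarith
  have htr : 0 < t * r / 2 := by positivity
  constructor
  · obtain ⟨d1, h1, h1'⟩ := exists_rat_btwn (show c.1 + t * v.1 < c.1 + t * v.1 + t * r / 2 by linarith)
    obtain ⟨d2, h2, h2'⟩ := exists_rat_btwn (show c.2 + t * v.2 < c.2 + t * v.2 + t * r / 2 by linarith)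
    refine ⟨(d1, d2), fun θ => ?_⟩
    have h3 := key (c.1 + t * v.1 - d1) (c.2 + t * v.2 - d2) θ (abs_le.2 ⟨by linarith, by linarith⟩) (abs_le.2 ⟨by linarith, by linarith⟩)
    simp only
    linarith
  · obtain ⟨d1, h1, h1'⟩ := exists_rat_btwn (show c.1 - t * v.1 < c.1 - t * v.1 + t * r / 2 by linarith)
    obtain ⟨d2, h2, h2'⟩ := exists_rat_btwn (show c.2 - t * v.2 < c.2 - t * v.2 + t * r / 2 by linarith)
    refine ⟨(d1, d2), fun θ => ?_⟩
    have h3 := key (d1 - (c.1 - t * v.1)) (d2 - (c.2 - t * v.2)) θ (abs_le.2 ⟨by linarith, by linarith⟩) (abs_le.2 ⟨by linarith, by linarith⟩)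
    simp only
    linarith

/-- the error at a centre and the errors at rational centres and nearby radii -/
private theorem err_near {H : ℝ → ℝ} {v : ℝ × ℝ} {r : ℝ} (hr : 0 < r) (h : ∀ θ, r ≤ H θ + (v.1 * cos θ + v.2 * sin θ))
    {X R : ℝ} (hX : 1 ≤ X) (hR : R ∈ Icc X (2 * X)) (c : ℝ × ℝ) :
    (∃ d : ℚ × ℚ, |cntc H c R - area H * R ^ 2| ≤ |cntc H ((d.1 : ℝ), (d.2 : ℝ)) (R + 1 / X) - area H * (R + 1 / X) ^ 2| + 20 * area H) ∨
    (1 ≤ R - 1 / X ∧ ∃ d : ℚ × ℚ, |cntc H c R - area H * R ^ 2| ≤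
      |cntc H ((d.1 : ℝ), (d.2 : ℝ)) (R - 1 / X) - area H * (R - 1 / X) ^ 2| + 20 * area H) := by
  have hX0 : 0 < X := by linarith
  have ht : 0 < 1 / X := by positivity
  have ht1 : 1 / X ≤ 1 := by rw [div_le_one hX0]; exact hX
  have hA : 0 ≤ area H := ENNReal.toReal_nonneg
  have hRt : R * (1 / X) ≤ 2 := by
    calc R * (1 / X) ≤ (2 * X) * (1 / X) := mul_le_mul_of_nonneg_right hR.2 ht.le
      _ = 2 := by field_simp
  have hR0 : 0 ≤ R := by linarith [hR.1]
  have htt : (1 / X) ^ 2 ≤ 1 := by nlinarith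
  obtain ⟨⟨d, hd⟩, d', hd'⟩ := near hr h ht c
  have h1 : cntc H c R ≤ cntc H ((d.1 : ℝ), (d.2 : ℝ)) (R + 1 / X) := mono (fun θ => by
    have := hd θ
    have e : (R + 1 / X - R) * H θ = 1 / X * H θ := by ring
    rw [e]
    exact this)
  have h2 : cntc H ((d'.1 : ℝ), (d'.2 : ℝ)) (R - 1 / X) ≤ cntc H c R := mono (fun θ => by
    have := hd' θ
    have e : (R - (R - 1 / X)) * H θ = 1 / X * H θ := by ring
    rw [e]
    exact this)
  rcases le_total 0 (cntc H c R - area H * R ^ 2) with hs | hs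
  · left
    refine ⟨d, ?_⟩
    rw [abs_of_nonneg hs]
    have h3 := le_abs_self (cntc H ((d.1 : ℝ), (d.2 : ℝ)) (R + 1 / X) - area H * (R + 1 / X) ^ 2)
    have h4 : area H * (R + 1 / X) ^ 2 = area H * R ^ 2 + area H * (2 * (R * (1 / X)) + (1 / X) ^ 2) := by ring
    have h5 : area H * (2 * (R * (1 / X)) + (1 / X) ^ 2) ≤ area H * 5 := mul_le_mul_of_nonneg_left (by linarith) hA
    linarith
  · rw [abs_of_nonpos hs]
    by_cases h6 : 1 ≤ R - 1 / X
    · right
      refine ⟨h6, d', ?_⟩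
      have h3 := neg_abs_le (cntc H ((d'.1 : ℝ), (d'.2 : ℝ)) (R - 1 / X) - area H * (R - 1 / X) ^ 2)
      have h4 : area H * (R - 1 / X) ^ 2 = area H * R ^ 2 - area H * (2 * (R * (1 / X))) + area H * (1 / X) ^ 2 := by ring
      have h5 : area H * (2 * (R * (1 / X))) ≤ area H * 4 := mul_le_mul_of_nonneg_left (by linarith) hA
      have h7 : 0 ≤ area H * (1 / X) ^ 2 := by positivity
      linarith
    · left
      refine ⟨d, ?_⟩
      have h7 : R ≤ 2 := by linarith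
      have h8 : 0 ≤ cntc H c R := Nat.cast_nonneg _
      have h9 := abs_nonneg (cntc H ((d.1 : ℝ), (d.2 : ℝ)) (R + 1 / X) - area H * (R + 1 / X) ^ 2)
      have h10 : area H * R ^ 2 ≤ area H * 4 := mul_le_mul_of_nonneg_left (by nlinarith) hA
      linarith

private theorem pow_two_le (J : ℕ) {x y : ℝ} (hx : 0 ≤ x) (hy : 0 ≤ y) : (x + y) ^ (2 * J) ≤ 4 ^ J * (x ^ (2 * J) + y ^ (2 * J)) := by
  have h1 : x + y ≤ 2 * max x y := by linarith [le_max_left x y, le_max_right x y]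
  have h2 : (x + y) ^ (2 * J) ≤ (2 * max x y) ^ (2 * J) := pow_le_pow_left₀ (by positivity) h1 _
  have h3 : (2 * max x y) ^ (2 * J) = 4 ^ J * max x y ^ (2 * J) := by
    rw [mul_pow, pow_mul]
    norm_num
  have h4 : max x y ^ (2 * J) ≤ x ^ (2 * J) + y ^ (2 * J) := by
    rcases le_total x y with h | h
    · rw [max_eq_right h]
      linarith [pow_nonneg hx (2 * J)]
    · rw [max_eq_left h]
      linarith [pow_nonneg hy (2 * J)]
  rw [h3] at h2
  exact h2.trans (mul_le_mul_of_nonneg_left h4 (by positivity))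

private theorem sup_le {J : ℕ} {H : ℝ → ℝ} {v : ℝ × ℝ} {r : ℝ} (hr : 0 < r) (h : ∀ θ, r ≤ H θ + (v.1 * cos θ + v.2 * sin θ))
    {X R : ℝ} (hX : 1 ≤ X) (hR : R ∈ Icc X (2 * X)) :
    ⨆ c : ℝ × ℝ, ENNReal.ofReal (|cntc H c R - area H * R ^ 2| ^ (2 * J)) ≤
      ENNReal.ofReal (4 ^ J) * (Wq J H (R + 1 / X) + (Ici (1 : ℝ)).indicator (Wq J H) (R - 1 / X) + ENNReal.ofReal ((20 * area H) ^ (2 * J))) := by
  have hA : 0 ≤ area H := ENNReal.toReal_nonneg
  refine iSup_le fun c => ?_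
  have hgen : ∀ (d : ℚ × ℚ) (s : ℝ), |cntc H c R - area H * R ^ 2| ≤ |cntc H ((d.1 : ℝ), (d.2 : ℝ)) s - area H * s ^ 2| + 20 * area H →
      ENNReal.ofReal (|cntc H c R - area H * R ^ 2| ^ (2 * J)) ≤ ENNReal.ofReal (4 ^ J) * (Wq J H s + ENNReal.ofReal ((20 * area H) ^ (2 * J))) := by
    intro d s h1
    have h2 := (pow_le_pow_left₀ (abs_nonneg _) h1 (2 * J)).trans (pow_two_le J (abs_nonneg _) (by positivity : (0 : ℝ) ≤ 20 * area H))
    refine (ENNReal.ofReal_le_ofReal h2).trans ?_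
    rw [ENNReal.ofReal_mul (by positivity), ENNReal.ofReal_add (by positivity) (by positivity)]
    gcongr
    exact le_iSup (fun c : ℚ × ℚ => ENNReal.ofReal (|cntc H ((c.1 : ℝ), (c.2 : ℝ)) s - area H * s ^ 2| ^ (2 * J))) d
  rcases err_near hr h hX hR c with ⟨d, hd⟩ | ⟨h1, d, hd⟩
  · refine (hgen d _ hd).trans ?_
    gcongr
    exact le_self_add
  · refine (hgen d _ hd).trans ?_
    rw [Set.indicator_of_mem (show R - 1 / X ∈ Ici (1 : ℝ) from h1)]
    gcongr
    exact le_add_self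

private theorem cover_le (J : ℕ) (H : ℝ → ℝ) {C : ℝ} (hC : 0 ≤ C)
    (h : ∀ N : ℕ, momq J H (2 ^ N) ≤ ENNReal.ofReal (C * ((2 : ℝ) ^ N) ^ (1 + J))) {X : ℝ} (hX : 1 ≤ X) :
    ∫⁻ R in Icc (max 1 (X / 2)) (3 * X), Wq J H R ≤ ENNReal.ofReal (4 * (C * (8 * X) ^ (1 + J))) := by
  obtain ⟨N, hN1, hN2⟩ := exists_nat_pow_near hX one_lt_two
  set k : ℕ := N - 1 with hk
  have hsub : Icc (max 1 (X / 2)) (3 * X) ⊆ ⋃ i : Fin 4, Icc ((2 : ℝ) ^ (k + (i : ℕ))) (2 * 2 ^ (k + (i : ℕ))) := by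
    intro R hR
    have h1 : (1 : ℝ) ≤ R := (le_max_left _ _).trans hR.1
    have h2 : X / 2 ≤ R := (le_max_right _ _).trans hR.1
    have h3 : (2 : ℝ) ^ k ≤ R := by
      rcases Nat.eq_zero_or_pos N with h0 | h0
      · rw [hk, h0]
        simpa using h1
      · have : (2 : ℝ) ^ N = 2 * 2 ^ k := by
          rw [hk, ← pow_succ']
          congr 1
          omega
        linarith
    have h4 : R ≤ 2 ^ (k + 4) := by
      have : (2 : ℝ) ^ (N + 1) ≤ 2 ^ (k + 2) := pow_le_pow_right₀ (by norm_num) (by omega)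
      have h5 : (2 : ℝ) ^ (k + 4) = 4 * 2 ^ (k + 2) := by ring
      linarith [hR.2]
    rw [mem_iUnion]
    by_cases a1 : R ≤ 2 ^ (k + 1)
    · refine ⟨0, ?_, ?_⟩
      · simpa using h3
      · have : (2 : ℝ) ^ (k + 1) = 2 * 2 ^ (k + ((0 : Fin 4) : ℕ)) := by simp; ring
        linarith
    by_cases a2 : R ≤ 2 ^ (k + 2)
    · refine ⟨1, ?_, ?_⟩
      · exact (not_le.1 a1).le
      · have : (2 : ℝ) ^ (k + 2) = 2 * 2 ^ (k + ((1 : Fin 4) : ℕ)) := by simp; ring
        linarith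
    by_cases a3 : R ≤ 2 ^ (k + 3)
    · refine ⟨2, ?_, ?_⟩
      · exact (not_le.1 a2).le
      · have : (2 : ℝ) ^ (k + 3) = 2 * 2 ^ (k + ((2 : Fin 4) : ℕ)) := by simp; ring
        linarith
    · refine ⟨3, ?_, ?_⟩
      · exact (not_le.1 a3).le
      · have : (2 : ℝ) ^ (k + 4) = 2 * 2 ^ (k + ((3 : Fin 4) : ℕ)) := by simp; ring
        linarith
  refine (lintegral_mono_set hsub).trans ((lintegral_iUnion_le _ _).trans ?_)
  rw [tsum_fintype]
  have h1 : ∀ i : Fin 4, ∫⁻ R in Icc ((2 : ℝ) ^ (k + (i : ℕ))) (2 * 2 ^ (k + (i : ℕ))), Wq J H R ≤ ENNReal.ofReal (C * (8 * X) ^ (1 + J)) := by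
    intro i
    refine (h (k + i)).trans (ENNReal.ofReal_le_ofReal ?_)
    refine mul_le_mul_of_nonneg_left (pow_le_pow_left₀ (by positivity) ?_ _) hC
    have h2 : (2 : ℝ) ^ (k + (i : ℕ)) ≤ 2 ^ (N + 3) := pow_le_pow_right₀ (by norm_num) (by omega)
    have h3 : (2 : ℝ) ^ (N + 3) = 8 * 2 ^ N := by ring
    linarith
  calc _ ≤ ∑ _i : Fin 4, ENNReal.ofReal (C * (8 * X) ^ (1 + J)) := Finset.sum_le_sum fun i _ => h1 i
    _ = ENNReal.ofReal (4 * (C * (8 * X) ^ (1 + J))) := by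
        rw [Finset.sum_const, Finset.card_univ, Fintype.card_fin, nsmul_eq_mul, ENNReal.ofReal_mul (by norm_num : (0 : ℝ) ≤ 4)]
        norm_num

/-- translation of the integral over an interval -/
private theorem shift_le (f : ℝ → ENNReal) (a b t : ℝ) :
    ∫⁻ R in Icc a b, f (R + t) = ∫⁻ R in Icc (a + t) (b + t), f R := by
  rw [← lintegral_indicator measurableSet_Icc, ← lintegral_indicator measurableSet_Icc,
    ← lintegral_add_right_eq_self (fun R => (Icc (a + t) (b + t)).indicator f R) t]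
  refine lintegral_congr fun R => ?_
  by_cases h : R ∈ Icc a b
  · rw [indicator_of_mem h, indicator_of_mem (show R + t ∈ Icc (a + t) (b + t) from ⟨by linarith [h.1], by linarith [h.2]⟩)]
  · rw [indicator_of_notMem h, indicator_of_notMem]
    intro h'
    exact h ⟨by linarith [h'.1], by linarith [h'.2]⟩

theorem mom_rat {J : ℕ} {H : ℝ → ℝ} (h2 : ContDiff ℝ 2 H) (hp : Function.Periodic H (2 * π)) (hr : ∀ θ, 0 < H θ + deriv (deriv H) θ) :
    (∃ C : ℝ, ∀ X : ℝ, 1 ≤ X → mom J H X ≤ ENNReal.ofReal (C * X ^ (1 + J))) ↔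
    (∃ C : ℕ, ∀ N : ℕ, momq J H (2 ^ N) ≤ ENNReal.ofReal (C * ((2 : ℝ) ^ N) ^ (1 + J))) := by
  constructor
  · rintro ⟨C, hC⟩
    refine ⟨⌈C⌉₊, fun N => ?_⟩
    have h1 : momq J H (2 ^ N) ≤ mom J H (2 ^ N) := by
      unfold momq mom
      refine lintegral_mono fun R => iSup_le fun c => ?_
      exact le_iSup (fun c : ℝ × ℝ => ENNReal.ofReal (|cntc H c R - area H * R ^ 2| ^ (2 * J))) ((c.1 : ℝ), (c.2 : ℝ))
    refine (h1.trans (hC _ (one_le_pow₀ (by norm_num)))).trans (ENNReal.ofReal_le_ofReal ?_)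
    exact mul_le_mul_of_nonneg_right (Nat.le_ceil C) (by positivity)
  · rintro ⟨C, hC⟩
    obtain ⟨v, r, hr0, hv⟩ := disc h2 hp hr
    refine ⟨4 ^ J * (2 * (4 * (C * 8 ^ (1 + J))) + (20 * area H) ^ (2 * J)), fun X hX => ?_⟩
    have hX0 : 0 < X := by linarith
    have ht1 : 1 / X ≤ 1 := by rw [div_le_one hX0]; exact hX
    have ht0 : 0 < 1 / X := by positivity
    have hc := cover_le J H (Nat.cast_nonneg C) hC hX
    have hm1 : Measurable (fun R : ℝ => Wq J H (R + 1 / X)) := (Wq_meas J H).comp (by fun_prop)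
    have hm2 : Measurable (fun R : ℝ => (Ici (1 : ℝ)).indicator (Wq J H) (R - 1 / X)) :=
      ((Wq_meas J H).indicator measurableSet_Ici).comp (by fun_prop)
    have h3 : ∫⁻ R in Icc X (2 * X), Wq J H (R + 1 / X) ≤ ENNReal.ofReal (4 * (C * (8 * X) ^ (1 + J))) := by
      rw [shift_le]
      refine (lintegral_mono_set (Icc_subset_Icc ?_ ?_)).trans hc
      · rw [max_le_iff]
        constructor <;> linarith
      · linarith
    have h4 : ∫⁻ R in Icc X (2 * X), (Ici (1 : ℝ)).indicator (Wq J H) (R - 1 / X) ≤ ENNReal.ofReal (4 * (C * (8 * X) ^ (1 + J))) := by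
      have e1 := shift_le ((Ici (1 : ℝ)).indicator (Wq J H)) X (2 * X) (-(1 / X))
      simp only [← sub_eq_add_neg] at e1
      rw [e1]
      refine le_trans ?_ hc
      rw [← lintegral_indicator measurableSet_Icc, ← lintegral_indicator measurableSet_Icc]
      refine lintegral_mono fun R => ?_
      by_cases h5 : R ∈ Icc (X - 1 / X) (2 * X - 1 / X)
      · rw [indicator_of_mem h5]
        by_cases h6 : R ∈ Ici (1 : ℝ)
        · rw [indicator_of_mem h6, indicator_of_mem]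
          have h7 : (1 : ℝ) ≤ R := h6
          refine ⟨max_le h7 ?_, by linarith [h5.2]⟩
          by_cases h8 : X ≤ 2
          · linarith
          · have h9 : 1 / X ≤ X / 2 := by
              rw [div_le_div_iff₀ hX0 (by norm_num)]
              nlinarith
            linarith [h5.1]
        · rw [indicator_of_notMem h6]
          exact bot_le
      · rw [indicator_of_notMem h5]
        exact bot_le
    unfold mom
    calc ∫⁻ R in Icc X (2 * X), ⨆ c : ℝ × ℝ, ENNReal.ofReal (|cntc H c R - area H * R ^ 2| ^ (2 * J))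
        ≤ ∫⁻ R in Icc X (2 * X), ENNReal.ofReal (4 ^ J) * (Wq J H (R + 1 / X) + (Ici (1 : ℝ)).indicator (Wq J H) (R - 1 / X) +
            ENNReal.ofReal ((20 * area H) ^ (2 * J))) :=
          setLIntegral_mono' measurableSet_Icc fun R hR => sup_le hr0 hv hX hR
      _ = ENNReal.ofReal (4 ^ J) * ((∫⁻ R in Icc X (2 * X), Wq J H (R + 1 / X)) + (∫⁻ R in Icc X (2 * X), (Ici (1 : ℝ)).indicator (Wq J H) (R - 1 / X)) +
            ENNReal.ofReal ((20 * area H) ^ (2 * J)) * ENNReal.ofReal X) := by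
          have e1 : Measurable (fun R : ℝ => Wq J H (R + 1 / X) + (Ici (1 : ℝ)).indicator (Wq J H) (R - 1 / X)) := hm1.add hm2
          rw [lintegral_const_mul _ (e1.add_const _), lintegral_add_left e1, lintegral_add_left hm1, lintegral_const,
            Measure.restrict_apply_univ, Real.volume_Icc]
          have e2 : 2 * X - X = X := by ring
          rw [e2]
      _ ≤ ENNReal.ofReal (4 ^ J) * (ENNReal.ofReal (4 * (C * (8 * X) ^ (1 + J))) + ENNReal.ofReal (4 * (C * (8 * X) ^ (1 + J))) +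
            ENNReal.ofReal ((20 * area H) ^ (2 * J)) * ENNReal.ofReal X) := by
          gcongr
      _ = ENNReal.ofReal (4 ^ J * (2 * (4 * (C * (8 * X) ^ (1 + J))) + (20 * area H) ^ (2 * J) * X)) := by
          have hA : 0 ≤ area H := ENNReal.toReal_nonneg
          rw [← ENNReal.ofReal_add (by positivity) (by positivity), ← ENNReal.ofReal_mul (by positivity), ← ENNReal.ofReal_add (by positivity) (by positivity),
            ← ENNReal.ofReal_mul (by positivity)]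
          congr 1
          ring
      _ ≤ ENNReal.ofReal (4 ^ J * (2 * (4 * (C * 8 ^ (1 + J))) + (20 * area H) ^ (2 * J)) * X ^ (1 + J)) := by
          have hA : 0 ≤ area H := ENNReal.toReal_nonneg
          refine ENNReal.ofReal_le_ofReal ?_
          have h5 : X ≤ X ^ (1 + J) := le_self_pow₀ hX (by omega)
          have h6 : (20 * area H) ^ (2 * J) * X ≤ (20 * area H) ^ (2 * J) * X ^ (1 + J) := mul_le_mul_of_nonneg_left h5 (by positivity)
          have h7 : (4 : ℝ) ^ J * (2 * (4 * (C * (8 * X) ^ (1 + J))) + (20 * area H) ^ (2 * J) * X) ≤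
              4 ^ J * (2 * (4 * (C * (8 * X) ^ (1 + J))) + (20 * area H) ^ (2 * J) * X ^ (1 + J)) :=
            mul_le_mul_of_nonneg_left (by linarith) (by positivity)
          refine h7.trans (le_of_eq ?_)
          rw [mul_pow]
          ring

end Pool.Agent.Helper60.MM
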