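import Pool.Agent.Helper92.MM.Defs
import Pool.Agent.Helper96.AD.A6
import Pool.Agent.Helper22.AE.C1
import Pool.Agent.Helper22.AE.E0

/-!
# MM-M3, second half: Markov and Fubini (`large_set` from `large_mean`)
-/

open MeasureTheory Real Set Filter Topology

set_option autoImplicit false

namespace Pool.Agent.Helper60.MM

open Pool.Agent.Helper22.AE
open Pool.Agent.Helper60.AD
open Pool.Agent.Helper92.MM
open Pool.Agent.Helper96.AD (Yq_cont Yq_le)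

private lemma k0c {β : ℝ} (hβ : 0 < β) : Continuous (fun α : ℝ => k0 β α) := by
  unfold k0
  refine continuous_const.div (by fun_prop) ?_
  intro α
  positivity

private lemma k0n {β : ℝ} (hβ : 0 < β) (α : ℝ) : 0 ≤ k0 β α := by
  unfold k0
  positivity

theorem gd1_meas : MeasurableSet gd1 := by
  unfold gd1
  exact measurableSet_Icc.inter (measurableSet_le measurable_const (by fun_prop))

/-- the measure `k0 β α dα` on `gd1` -/
noncomputable def nuG (β : ℝ) : Measure ℝ :=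
  (volume.restrict gd1).withDensity (fun α => ENNReal.ofReal (k0 β α))

theorem nuG_mass {β : ℝ} (hβ : 0 < β) : IsFiniteMeasure (nuG β) ∧ (nuG β).real univ ≤ 20 := by
  have hle : (nuG β) univ ≤ ENNReal.ofReal 20 := by
    unfold nuG
    rw [withDensity_apply _ MeasurableSet.univ, Measure.restrict_univ]
    refine (lintegral_mono_set (show gd1 ⊆ Icc (-π) π from fun _ h => h.1)).trans ?_
    have hint : IntegrableOn (fun α : ℝ => k0 β α) (Icc (-π) π) :=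
      (k0c hβ).continuousOn.integrableOn_compact isCompact_Icc
    rw [← ofReal_integral_eq_lintegral_ofReal hint (ae_of_all _ fun p => k0n hβ _)]
    apply ENNReal.ofReal_le_ofReal
    have h3 : ∫ y in Icc (-π) π, k0 β y = ∫ y in (-π)..π, k0 β y := by
      rw [intervalIntegral.integral_of_le (by linarith [pi_pos]), integral_Icc_eq_integral_Ioc]
    rw [h3]
    exact k0_int hβ
  refine ⟨⟨lt_of_le_of_lt hle ENNReal.ofReal_lt_top⟩, ?_⟩
  rw [measureReal_def]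
  calc ((nuG β) univ).toReal ≤ (ENNReal.ofReal 20).toReal := ENNReal.toReal_mono ENNReal.ofReal_ne_top hle
    _ = 20 := ENNReal.toReal_ofReal (by norm_num)

theorem nuG_int {β : ℝ} (hβ : 0 < β) (g : ℝ → ℝ) : ∫ α, g α ∂(nuG β) = ∫ α in gd1, k0 β α * g α := by
  unfold nuG
  rw [integral_withDensity_eq_integral_toReal_smul (k0c hβ).measurable.ennreal_ofReal
    (ae_of_all _ fun p => ENNReal.ofReal_lt_top)]
  refine integral_congr_ae (ae_of_all _ fun α => ?_)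
  simp only
  rw [ENNReal.toReal_ofReal (k0n hβ _), smul_eq_mul]

/-- `nuG` does not charge the complement of `gd1` -/
theorem nuG_ae (β : ℝ) : ∀ᵐ α ∂(nuG β), α ∈ gd1 := by
  unfold nuG
  exact (withDensity_absolutelyContinuous _ _).ae_le (ae_restrict_mem gd1_meas)

private lemma maj_cont {L : ℕ} (J M m n : ℕ) {H₀ : ℝ → ℝ} (h0 : ContDiff ℝ 2 H₀) (b : ℝ → ℤ × ℤ → ℂ)
    (hb : ∀ k, Continuous (fun α => b α k)) :
    Continuous (fun q : (ℝ × ℝ) × ((Fin L → ℝ) × (Fin L → ℝ)) => Maj J M m (Hw H₀ q.2) n (b q.1.2) q.1.1 q.1.2) := by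
  unfold Maj Vs
  refine continuous_const.mul (continuous_const.add ?_)
  refine continuous_finsetSum _ fun s _ => continuous_finsetSum _ fun j _ => continuous_finsetSum _ fun a _ => ?_
  exact continuous_const.mul (Yq_cont h0 (arcs n s j a) (fun _ => b) (fun _ => hb))

private lemma maj_nonneg (J M m n : ℕ) (h : ℝ → ℝ) (b : ℤ × ℤ → ℂ) (R α : ℝ) : 0 ≤ Maj J M m h n b R α := by
  have hD : 0 ≤ Dc (2 ^ n) M m := by
    unfold Dc
    positivity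
  have hY : ∀ s ∈ Finset.range m, 0 ≤ Vs J M s h n b R α := by
    intro s _
    unfold Vs Yq
    positivity
  have hA : 0 ≤ Aj J M m := by
    unfold Aj
    positivity
  unfold Maj
  exact mul_nonneg (pow_nonneg hA _) (add_nonneg (pow_nonneg hD _) (Finset.sum_nonneg hY))

private lemma maj_le (J M m n : ℕ) : ∃ B : ℝ, ∀ (h : ℝ → ℝ) (b : ℤ × ℤ → ℂ), (∀ k, ‖b k‖ ≤ 1) → ∀ R α : ℝ,
    Maj J M m h n b R α ≤ B := by
  refine ⟨Aj J M m ^ (2 * J) * (Dc (2 ^ n) M m ^ (2 * J) + ∑ s ∈ Finset.range m, ∑ j ∈ Finset.range (8 * M ^ s), ∑ a ∈ gapT J M,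
    ((fq (arcs n s j a)).card : ℝ) * (∏ t, ((arcs n s j a t).card : ℝ)) ^ 2), fun h b hb R α => ?_⟩
  have hA : 0 ≤ Aj J M m := by
    unfold Aj
    positivity
  unfold Maj Vs
  refine mul_le_mul_of_nonneg_left (add_le_add le_rfl ?_) (pow_nonneg hA _)
  refine Finset.sum_le_sum fun s _ => Finset.sum_le_sum fun j _ => Finset.sum_le_sum fun a _ => ?_
  exact mul_le_mul_of_nonneg_left (Yq_le h (arcs n s j a) (fun _ => b) (fun _ k _ => hb k) R α).2 (by positivity)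

/-- Markov and Fubini -/
theorem large_set {L : ℕ} (_hL : 6 ≤ L) {H₀ : ℝ → ℝ} (h0 : ContDiff ℝ 2 H₀)
    (hmean : ∃ C x₀ : ℝ, 0 < C ∧ 1 ≤ x₀ ∧ ∀ (R₀ : ℝ) (n : ℕ), 1 ≤ R₀ → x₀ ≤ (2 : ℝ) ^ n → (2 : ℝ) ^ n ≤ R₀ ^ (51 / 100 : ℝ) →
      ∀ b : ℤ × ℤ → ℂ, (∀ k, ‖b k‖ ≤ 1) → ∀ R α : ℝ, R₀ / 2 ≤ R → 1 / 2 ≤ |cos α| →
        1 ≤ Mx n ∧ ∫ w : (Fin L → ℝ) × (Fin L → ℝ), Maj 3 (Mx n) 22 (Hw H₀ w) n b R α ∂(gm L) ≤ C * ((2 : ℝ) ^ n) ^ (89 / 10 : ℝ)) :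
    ∃ C x₀ : ℝ, 0 < C ∧ 1 ≤ x₀ ∧ ∀ (R₀ : ℝ) (n : ℕ), 1 ≤ R₀ → x₀ ≤ (2 : ℝ) ^ n → (2 : ℝ) ^ n ≤ R₀ ^ (51 / 100 : ℝ) →
      ∀ β : ℝ, 0 < β → ∀ b : ℝ → ℤ × ℤ → ℂ, (∀ k, Continuous (fun α => b α k)) → (∀ α k, ‖b α k‖ ≤ 1) →
        1 ≤ Mx n ∧ ∃ E : Set ((Fin L → ℝ) × (Fin L → ℝ)), (gm L).real E ≤ C * ((2 : ℝ) ^ n) ^ (-(1 / 20) : ℝ) ∧
          ∀ w ∉ E, ∫ R in Icc (R₀ / 2) (4 * R₀), ∫ α in gd1, k0 β α * Maj 3 (Mx n) 22 (Hw H₀ w) n (b α) R α ≤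
            R₀ * ((2 : ℝ) ^ n) ^ (9 - 1 / 20 : ℝ) := by
  obtain ⟨C, x₀, hC, hx₀, hm⟩ := hmean
  refine ⟨80 * C, x₀, by positivity, hx₀, ?_⟩
  intro R₀ n hR₀ hxn hnR β hβ b hbc hb
  have hR0 : 0 < R₀ := by linarith
  have hx0 : (0 : ℝ) < 2 ^ n := by positivity
  have hMx : 1 ≤ Mx n := (hm R₀ n hR₀ hxn hnR (b 0) (hb 0) R₀ 0 (by linarith) (by rw [cos_zero, abs_one]; norm_num)).1
  refine ⟨hMx, ?_⟩
  obtain ⟨hfin, hmass⟩ := nuG_mass hβ
  set μR : Measure ℝ := volume.restrict (Icc (R₀ / 2) (4 * R₀)) with hμR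
  have hfinR : IsFiniteMeasure μR := ⟨by rw [hμR, Measure.restrict_apply_univ]; exact measure_Icc_lt_top⟩
  obtain ⟨B, hB⟩ := maj_le 3 (Mx n) 22 n
  set f : ((ℝ × ℝ) × ((Fin L → ℝ) × (Fin L → ℝ))) → ℝ := fun q => Maj 3 (Mx n) 22 (Hw H₀ q.2) n (b q.1.2) q.1.1 q.1.2 with hf
  have hfc : Continuous f := maj_cont 3 (Mx n) 22 n h0 b hbc
  have hf0 : ∀ q, 0 ≤ f q := fun q => maj_nonneg _ _ _ _ _ _ _ _
  have hfB : ∀ q, ‖f q‖ ≤ B := fun q => by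
    rw [Real.norm_eq_abs, abs_of_nonneg (hf0 q)]
    exact hB _ _ (hb _) _ _
  -- the function of `w`
  set F : ((Fin L → ℝ) × (Fin L → ℝ)) → ℝ := fun w => ∫ p, f (p, w) ∂(μR.prod (nuG β)) with hF
  have hFeq : ∀ w, F w = ∫ R in Icc (R₀ / 2) (4 * R₀), ∫ α in gd1, k0 β α * Maj 3 (Mx n) 22 (Hw H₀ w) n (b α) R α := by
    intro w
    have hcw : Continuous (fun p : ℝ × ℝ => f (p, w)) := hfc.comp (Continuous.prodMk_left w)
    have hi : Integrable (fun p : ℝ × ℝ => f (p, w)) (μR.prod (nuG β)) :=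
      Integrable.of_bound hcw.aestronglyMeasurable B (ae_of_all _ fun p => hfB _)
    show ∫ p, f (p, w) ∂(μR.prod (nuG β)) = _
    rw [integral_prod _ hi]
    refine integral_congr_ae (ae_of_all _ fun R => ?_)
    exact nuG_int hβ (fun α => f ((R, α), w))
  have hF0 : ∀ w, 0 ≤ F w := fun w => integral_nonneg fun p => hf0 _
  have hint : Integrable f ((μR.prod (nuG β)).prod (gm L)) :=
    Integrable.of_bound hfc.aestronglyMeasurable B (ae_of_all _ fun p => hfB _)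
  have hFint : Integrable F (gm L) := hint.integral_prod_right
  have hmeanF : ∫ w, F w ∂(gm L) ≤ 4 * R₀ * 20 * (C * ((2 : ℝ) ^ n) ^ (89 / 10 : ℝ)) := by
    have h1 : ∫ w, F w ∂(gm L) = ∫ p, (∫ w, f (p, w) ∂(gm L)) ∂(μR.prod (nuG β)) :=
      (integral_integral_swap (f := fun p w => f (p, w)) hint).symm
    rw [h1]
    have hae : ∀ᵐ p ∂(μR.prod (nuG β)), ∫ w, f (p, w) ∂(gm L) ≤ C * ((2 : ℝ) ^ n) ^ (89 / 10 : ℝ) := by
      have hA : ∀ᵐ p ∂(μR.prod (nuG β)), p.1 ∈ Icc (R₀ / 2) (4 * R₀) :=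
        (Measure.quasiMeasurePreserving_fst (μ := μR) (ν := nuG β)).ae (ae_restrict_mem measurableSet_Icc)
      have hB' : ∀ᵐ p ∂(μR.prod (nuG β)), p.2 ∈ gd1 :=
        (Measure.quasiMeasurePreserving_snd (μ := μR) (ν := nuG β)).ae (nuG_ae β)
      filter_upwards [hA, hB'] with p h1 h2
      exact (hm R₀ n hR₀ hxn hnR (b p.2) (hb p.2) p.1 p.2 h1.1 h2.2).2
    have h2 : ∫ p, (∫ w, f (p, w) ∂(gm L)) ∂(μR.prod (nuG β)) ≤ ∫ _p, C * ((2 : ℝ) ^ n) ^ (89 / 10 : ℝ) ∂(μR.prod (nuG β)) :=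
      integral_mono_ae hint.integral_prod_left (integrable_const _) hae
    refine h2.trans ?_
    rw [integral_const, smul_eq_mul]
    refine mul_le_mul_of_nonneg_right ?_ (by positivity)
    rw [measureReal_def, Measure.prod_apply MeasurableSet.univ]
    simp only [preimage_univ, lintegral_const]
    rw [ENNReal.toReal_mul, mul_comm]
    have h3 : (μR univ).toReal ≤ 4 * R₀ := by
      rw [hμR, Measure.restrict_apply_univ, Real.volume_Icc, ENNReal.toReal_ofReal (by linarith)]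
      linarith
    exact mul_le_mul h3 hmass ENNReal.toReal_nonneg (by positivity)
  set T : ℝ := R₀ * ((2 : ℝ) ^ n) ^ (9 - 1 / 20 : ℝ) with hT
  have hT0 : 0 < T := by positivity
  refine ⟨{w | T ≤ F w}, ?_, fun w hw => ?_⟩
  · have h1 := mul_meas_ge_le_integral_of_nonneg (ae_of_all _ hF0) hFint T
    have h2 : (gm L).real {w | T ≤ F w} ≤ (4 * R₀ * 20 * (C * ((2 : ℝ) ^ n) ^ (89 / 10 : ℝ))) / T := by
      rw [le_div_iff₀ hT0, mul_comm]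
      exact h1.trans hmeanF
    refine h2.trans (le_of_eq ?_)
    rw [hT, div_eq_iff hT0.ne']
    have h3 : ((2 : ℝ) ^ n) ^ (-(1 / 20) : ℝ) * ((2 : ℝ) ^ n) ^ (9 - 1 / 20 : ℝ) = ((2 : ℝ) ^ n) ^ (89 / 10 : ℝ) := by
      rw [← Real.rpow_add hx0]
      norm_num
    calc 4 * R₀ * 20 * (C * ((2 : ℝ) ^ n) ^ (89 / 10 : ℝ)) = 80 * C * R₀ * ((2 : ℝ) ^ n) ^ (89 / 10 : ℝ) := by ring
      _ = 80 * C * R₀ * (((2 : ℝ) ^ n) ^ (-(1 / 20) : ℝ) * ((2 : ℝ) ^ n) ^ (9 - 1 / 20 : ℝ)) := by rw [h3]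
      _ = _ := by ring
  · rw [← hFeq w]
    exact (not_le.1 hw).le

end Pool.Agent.Helper60.MM
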