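import Pool.Agent.Helper60.MM.M7a
import Pool.Agent.Helper92.MM.Small
import Pool.Agent.Helper54.MM.Large
import Pool.Agent.Helper44.MM.M2Z
import Pool.Agent.Helper90.MM.MomBlocks
import Pool.Agent.Helper85.AD.Types2

/-!
# MM-M7: the finite theorem
-/

open MeasureTheory Real Set Filter Topology

set_option autoImplicit false

namespace Pool.Agent.Helper60.MM

open Pool.Agent.Helper22.AE
open Pool.Agent.Helper60.AD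
open Pool.Agent.Helper92.MM
open Pool.Agent.Helper92.GC (dt sqa)

/-- Borel-Cantelli: continuous majorants of all blocks for almost every `w` -/
theorem all_W {J : ℕ} (hJ : 3 ≤ J) : ∃ L₀ : ℕ, ∀ L : ℕ, L₀ ≤ L → ∀ {H₀ : ℝ → ℝ}, ContDiff ℝ 2 H₀ → Function.Periodic H₀ (2 * π) →
      ∀ Bd : ℝ, ∀ {nT : ℕ} (b : ℕ → Fin nT → ℝ → ℤ × ℤ → ℂ), (∀ n i k, Continuous (fun α => b n i α k)) →
      (∀ n i α k, ‖b n i α k‖ ≤ 1) → ∃ e2 A : ℝ, 0 < e2 ∧ e2 ≤ 1 / 4 ∧ 0 ≤ A ∧ ∀ᵐ w ∂(gm L), ‖w‖ ≤ Bd →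
      ∃ N₁ : ℕ, ∀ N : ℕ, N₁ ≤ N → ∀ n : ℕ, ∀ i, ∀ r < 2, (2 : ℝ) ^ (n + r) ≤ ((2 : ℝ) ^ N) ^ (1 / 2 + e2) →
        HasW H₀ J (n + r) (b n i) (((2 : ℝ) ^ N * 2 ^ n) ^ (-(1 / 2) : ℝ)) (2 ^ N)
          (A * 2 ^ N * ((2 : ℝ) ^ (n + r)) ^ (3 * J - 1 / 40 : ℝ)) w := by
  refine all_W_of ?_ ?_ ?_ hJ
  · intro J hJ
    obtain ⟨δ, C, hδ, hδ4, hC, h⟩ := Pool.Agent.Helper92.MMS.small_set' hJ
    exact ⟨δ, hδ, hδ4, fun hL _ h0 => ⟨C, hC, h hL h0⟩⟩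
  · intro L hL H₀ h0
    exact large_set hL h0 (Pool.Agent.Helper54.MM.large_mean hL h0)
  · intro L J M m n hJ hM H₀ h0 β hβ b hbc hb w R c
    exact Pool.Agent.Helper44.MM.Z_pow hJ hM h0 hβ b hbc hb w R c

theorem main_fin_M {J : ℕ} (hJ : 3 ≤ J) : ∃ L₀ : ℕ, ∀ L : ℕ, L₀ ≤ L → ∀ {H₀ : ℝ → ℝ}, ContDiff ℝ 2 H₀ →
    Function.Periodic H₀ (2 * π) →
    ∀ᵐ w : (Fin L → ℝ) × (Fin L → ℝ), (∀ θ, 0 < Hw H₀ w θ + deriv (deriv (Hw H₀ w)) θ) →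
      ∃ C : ℝ, ∀ X : ℝ, 1 ≤ X → mom J (Hw H₀ w) X ≤ ENNReal.ofReal (C * X ^ (1 + J)) := by
  obtain ⟨L₀, hall⟩ := all_W hJ
  refine ⟨L₀, fun L hL H₀ h0 hp => ?_⟩
  apply (vol_ac L).ae_le
  have hmain : ∀ Bd : ℕ, ∀ᵐ w ∂(gm L), ‖w‖ ≤ Bd → (∀ θ, 0 < Hw H₀ w θ + deriv (deriv (Hw H₀ w)) θ) →
      ∃ C : ℝ, ∀ X : ℝ, 1 ≤ X → mom J (Hw H₀ w) X ≤ ENNReal.ofReal (C * X ^ (1 + J)) := by
    intro Bd
    obtain ⟨nT, Ct, hCt, hty⟩ := Pool.Agent.Helper85.AD.types2 L h0 hp (Bd : ℝ)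
    choose b hbc hb1 hbt using hty
    obtain ⟨e2, A, he2, he24, hA, hae⟩ := hall L hL h0 hp (Bd : ℝ) b hbc hb1
    filter_upwards [hae] with w hw hwB hrho
    obtain ⟨N₁, hN₁⟩ := hw hwB
    exact Pool.Agent.Helper90.MM.mom_blocks h0 hp (by omega) he2 he24 (by norm_num : (0 : ℝ) < 1 / 40) (by norm_num) hA hCt b hb1 hbc w
      hrho (hbt · w hwB) hN₁
  have hall' := ae_all_iff.2 hmain
  filter_upwards [hall'] with w hw hS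
  exact hw ⌈‖w‖⌉₊ (Nat.le_ceil _) hS

end Pool.Agent.Helper60.MM
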