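import Pool.Agent.Helper92.MM.Defs
import Pool.Agent.Helper60.AD.Key
import Pool.Agent.Helper60.MM.M3b
import Pool.Agent.Helper44.MM.M2

/-!
# MM-M7, first half: Borel-Cantelli. For almost every `w` every block has a continuous majorant whose integral over the radii is small

`2^(n+r) ≤ R₀^δ`: `small_set`. Otherwise `large_set` and `key2` with `ε = δ`, `e1 = 1/(80 J)`: `Z^(2J) ≤ (x^(3/2+e1))^(2J-6) 20^6 ∫ k0 Maj 3`.
-/

open MeasureTheory Real Set Filter Topology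

set_option autoImplicit false

namespace Pool.Agent.Helper60.MM

open Pool.Agent.Helper22.AE
open Pool.Agent.Helper60.AD
open Pool.Agent.Helper92.MM
open Pool.Agent.Helper92.GC (dt sqa)

private lemma bc_pow (x : ℝ) : ∃ n : ℕ, x ≤ 2 ^ n := by
  obtain ⟨n, hn⟩ := pow_unbounded_of_one_lt x one_lt_two
  exact ⟨n, hn.le⟩

private lemma bc_rpow {δ : ℝ} (hδ : 0 < δ) (x : ℝ) : ∃ n : ℕ, ∀ N : ℕ, n ≤ N → x ≤ ((2 : ℝ) ^ N) ^ δ := by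
  have h1 : Tendsto (fun N : ℕ => ((2 : ℝ) ^ N) ^ δ) atTop atTop :=
    (tendsto_rpow_atTop hδ).comp (tendsto_pow_atTop_atTop_of_one_lt one_lt_two)
  obtain ⟨n, hn⟩ := eventually_atTop.1 (h1.eventually_ge_atTop x)
  exact ⟨n, hn⟩

private lemma bc_ae {α : Type*} [MeasurableSpace α] {μ : Measure α} [IsFiniteMeasure μ] (s : ℕ → Set α) (b : ℕ → ℝ)
    (hb : Summable b) (h : ∀ N, μ.real (s N) ≤ b N) : ∀ᵐ x ∂μ, ∀ᶠ N in atTop, x ∉ s N := by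
  have h1 : ∑' N, μ (s N) ≠ ⊤ := by
    have h2 : ∑' N, μ (s N) ≤ ∑' N, ENNReal.ofReal (b N) := by
      apply ENNReal.tsum_le_tsum
      intro N
      rw [← ofReal_measureReal]
      exact ENNReal.ofReal_le_ofReal (h N)
    refine ne_top_of_le_ne_top ?_ h2
    exact hb.tsum_ofReal_ne_top
  exact ae_eventually_notMem h1

private lemma bc_summable {q : ℝ} (hq : 0 ≤ q) (hq1 : q < 1) (A : ℝ) : Summable (fun N : ℕ => ((N : ℝ) + 1) * (A * q ^ N)) := by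
  have h1 : Summable (fun N : ℕ => ((N : ℝ) ^ 1 * q ^ N : ℝ)) :=
    summable_pow_mul_geometric_of_norm_lt_one 1 (by rw [Real.norm_of_nonneg hq]; exact hq1)
  have h2 : Summable (fun N : ℕ => q ^ N) := summable_geometric_of_lt_one hq hq1
  have h3 := (h1.add h2).mul_left A
  refine h3.congr (fun N => ?_)
  ring

private lemma bc_beta (N n : ℕ) (r : Fin 2) :
    ((2 : ℝ) ^ N * 2 ^ n) ^ (-(1 / 2) : ℝ) ≤ 2 * ((2 : ℝ) ^ N * 2 ^ (n + (r : ℕ))) ^ (-(1 / 2) : ℝ) := by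
  have hA : (0 : ℝ) < 2 ^ N * 2 ^ n := by positivity
  have hr : (2 : ℝ) ^ (r : ℕ) ≤ 2 := by
    have : (r : ℕ) ≤ 1 := by omega
    calc (2 : ℝ) ^ (r : ℕ) ≤ 2 ^ 1 := pow_le_pow_right₀ (by norm_num) this
      _ = 2 := by norm_num
  have hr0 : (0 : ℝ) < (2 : ℝ) ^ (r : ℕ) := by positivity
  have e : (2 : ℝ) ^ N * 2 ^ (n + (r : ℕ)) = (2 ^ N * 2 ^ n) * 2 ^ (r : ℕ) := by rw [pow_add]; ring
  rw [e, Real.mul_rpow hA.le hr0.le]
  have h1 : (2 : ℝ)⁻¹ ≤ ((2 : ℝ) ^ (r : ℕ)) ^ (-(1 / 2) : ℝ) := by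
    have h2 : (4 : ℝ) ^ (-(1 / 2) : ℝ) = 2⁻¹ := by
      rw [Real.rpow_neg (by norm_num), show (4 : ℝ) = 2 ^ (2 : ℝ) by norm_num, ← Real.rpow_mul (by norm_num)]
      norm_num
    rw [← h2]
    exact Real.rpow_le_rpow_of_nonpos hr0 (hr.trans (by norm_num)) (by norm_num)
  have h3 : 0 < ((2 : ℝ) ^ N * 2 ^ n) ^ (-(1 / 2) : ℝ) := Real.rpow_pos_of_pos hA _
  nlinarith

private lemma bj_cont {L : ℕ} (J M m n : ℕ) {H₀ : ℝ → ℝ} (h0 : ContDiff ℝ 2 H₀) (b : ℝ → ℤ × ℤ → ℂ)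
    (hb : ∀ k, Continuous (fun α => b α k)) :
    Continuous (fun q : (ℝ × ℝ) × ((Fin L → ℝ) × (Fin L → ℝ)) => Maj J M m (Hw H₀ q.2) n (b q.1.2) q.1.1 q.1.2) :=
  Pool.Agent.Helper44.MM.Maj_cont J M m n h0 b hb

/-- the angular mean of the majorant is a continuous function of the radius -/
theorem majInt_cont {L : ℕ} (J M m n : ℕ) {H₀ : ℝ → ℝ} (h0 : ContDiff ℝ 2 H₀) {β : ℝ} (hβ : 0 < β) (b : ℝ → ℤ × ℤ → ℂ)
    (hbc : ∀ k, Continuous (fun α => b α k)) (hb : ∀ α k, ‖b α k‖ ≤ 1) (w : (Fin L → ℝ) × (Fin L → ℝ)) :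
    Continuous (fun R : ℝ => ∫ α in gd1, k0 β α * Maj J M m (Hw H₀ w) n (b α) R α) := by
  obtain ⟨hfin, -⟩ := nuG_mass hβ
  obtain ⟨B, hB⟩ := Pool.Agent.Helper44.MM.Maj_bdd J M m n
  have hc := bj_cont (L := L) J M m n h0 b hbc
  have h1 : (fun R : ℝ => ∫ α in gd1, k0 β α * Maj J M m (Hw H₀ w) n (b α) R α) =
      fun R : ℝ => ∫ α, Maj J M m (Hw H₀ w) n (b α) R α ∂(nuG β) := by
    funext R
    rw [nuG_int hβ]
  rw [h1]
  have hRα : ∀ R : ℝ, Continuous (fun α : ℝ => Maj J M m (Hw H₀ w) n (b α) R α) := by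
    intro R
    have h1 : Continuous (fun α : ℝ => (((R, α) : ℝ × ℝ), w)) := by fun_prop
    have h2 := hc.comp h1
    simp only [Function.comp_def] at h2
    exact h2
  have hαR : ∀ α : ℝ, Continuous (fun R : ℝ => Maj J M m (Hw H₀ w) n (b α) R α) := by
    intro α
    have h1 : Continuous (fun R : ℝ => (((R, α) : ℝ × ℝ), w)) := by fun_prop
    have h2 := hc.comp h1
    simp only [Function.comp_def] at h2
    exact h2
  have hbd : ∀ R α : ℝ, ‖Maj J M m (Hw H₀ w) n (b α) R α‖ ≤ B := by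
    intro R α
    have h1 := hB (Hw H₀ w) (b α) (hb α) R α
    rw [Real.norm_eq_abs, abs_of_nonneg h1.1]
    exact h1.2
  generalize hg : (fun R α : ℝ => Maj J M m (Hw H₀ w) n (b α) R α) = g at *
  have hg' : ∀ R α : ℝ, Maj J M m (Hw H₀ w) n (b α) R α = g R α := fun R α => congrFun (congrFun hg R) α
  simp only [hg'] at hRα hαR hbd ⊢
  exact continuous_of_dominated (bound := fun _ => B) (fun R => (hRα R).aestronglyMeasurable) (fun R => ae_of_all _ fun α => hbd R α)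
    (integrable_const _) (ae_of_all _ fun α => hαR α)

theorem majInt_nonneg {L : ℕ} (J M m n : ℕ) {H₀ : ℝ → ℝ} {β : ℝ} (hβ : 0 < β) (b : ℝ → ℤ × ℤ → ℂ)
    (hb : ∀ α k, ‖b α k‖ ≤ 1) (w : (Fin L → ℝ) × (Fin L → ℝ)) (R : ℝ) :
    0 ≤ ∫ α in gd1, k0 β α * Maj J M m (Hw H₀ w) n (b α) R α := by
  obtain ⟨B, hB⟩ := Pool.Agent.Helper44.MM.Maj_bdd J M m n
  exact setIntegral_nonneg gd1_meas fun α _ => mul_nonneg (k0_nonneg' hβ α) (hB _ _ (hb α) _ _).1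

/-- there is a continuous majorant of `Z^(2J)` with integral at most `A` over the radii `R₀ / 2 ≤ R ≤ 4 R₀` -/
def HasW {L : ℕ} (H₀ : ℝ → ℝ) (J n : ℕ) (b : ℝ → ℤ × ℤ → ℂ) (β R₀ A : ℝ) (w : (Fin L → ℝ) × (Fin L → ℝ)) : Prop :=
  ∃ W : ℝ → ℝ, Continuous W ∧ (∀ R, 0 ≤ W R) ∧ (∀ R ∈ Icc (R₀ / 2) (4 * R₀), ∀ c : ℝ × ℝ,
    (∫ α in gd1, k0 β α * ‖Sc (Hw H₀ w) (blk n) (b α) R α c‖) ^ (2 * J) ≤ W R) ∧ ∫ R in Icc (R₀ / 2) (4 * R₀), W R ≤ A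

/-- Borel-Cantelli -/
theorem all_W_of
    (small : ∀ J : ℕ, 3 ≤ J → ∃ δ : ℝ, 0 < δ ∧ δ ≤ 1 / 4 ∧ ∀ {L : ℕ}, 2 * J ≤ L → ∀ {H₀ : ℝ → ℝ}, ContDiff ℝ 2 H₀ →
      ∃ C : ℝ, 0 < C ∧ ∀ (R₀ : ℝ) (n : ℕ), 1 ≤ R₀ → (2 : ℝ) ^ n ≤ R₀ ^ δ →
      ∀ β : ℝ, 0 < β → ∀ b : ℝ → ℤ × ℤ → ℂ, (∀ k, Continuous (fun α => b α k)) → (∀ α k, ‖b α k‖ ≤ 1) →
        1 ≤ Mx n ∧ ∃ E : Set ((Fin L → ℝ) × (Fin L → ℝ)), (gm L).real E ≤ C * R₀ ^ (-(1 / 4) : ℝ) ∧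
          ∀ w ∉ E, ∫ R in Icc (R₀ / 2) (4 * R₀), ∫ α in gd1, k0 β α * Maj J (Mx n) 22 (Hw H₀ w) n (b α) R α ≤
            C * R₀ * ((2 : ℝ) ^ n) ^ (3 * J - 1 / 20 : ℝ))
    (large : ∀ {L : ℕ}, 6 ≤ L → ∀ {H₀ : ℝ → ℝ}, ContDiff ℝ 2 H₀ →
      ∃ C x₀ : ℝ, 0 < C ∧ 1 ≤ x₀ ∧ ∀ (R₀ : ℝ) (n : ℕ), 1 ≤ R₀ → x₀ ≤ (2 : ℝ) ^ n → (2 : ℝ) ^ n ≤ R₀ ^ (51 / 100 : ℝ) →
      ∀ β : ℝ, 0 < β → ∀ b : ℝ → ℤ × ℤ → ℂ, (∀ k, Continuous (fun α => b α k)) → (∀ α k, ‖b α k‖ ≤ 1) →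
        1 ≤ Mx n ∧ ∃ E : Set ((Fin L → ℝ) × (Fin L → ℝ)), (gm L).real E ≤ C * ((2 : ℝ) ^ n) ^ (-(1 / 20) : ℝ) ∧
          ∀ w ∉ E, ∫ R in Icc (R₀ / 2) (4 * R₀), ∫ α in gd1, k0 β α * Maj 3 (Mx n) 22 (Hw H₀ w) n (b α) R α ≤
            R₀ * ((2 : ℝ) ^ n) ^ (9 - 1 / 20 : ℝ))
    (zpow : ∀ {L J M m n : ℕ}, 1 ≤ J → 1 ≤ M → ∀ {H₀ : ℝ → ℝ}, ContDiff ℝ 2 H₀ → ∀ {β : ℝ}, 0 < β →
      ∀ b : ℝ → ℤ × ℤ → ℂ, (∀ k, Continuous (fun α => b α k)) → (∀ α k, ‖b α k‖ ≤ 1) →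
      ∀ (w : (Fin L → ℝ) × (Fin L → ℝ)) (R : ℝ) (c : ℝ × ℝ),
      (∫ α in gd1, k0 β α * ‖Sc (Hw H₀ w) (blk n) (b α) R α c‖) ^ (2 * J) ≤
        20 ^ (2 * J) * ∫ α in gd1, k0 β α * Maj J M m (Hw H₀ w) n (b α) R α)
    {J : ℕ} (hJ : 3 ≤ J) : ∃ L₀ : ℕ, ∀ L : ℕ, L₀ ≤ L → ∀ {H₀ : ℝ → ℝ}, ContDiff ℝ 2 H₀ → Function.Periodic H₀ (2 * π) →
      ∀ Bd : ℝ, ∀ {nT : ℕ} (b : ℕ → Fin nT → ℝ → ℤ × ℤ → ℂ), (∀ n i k, Continuous (fun α => b n i α k)) →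
      (∀ n i α k, ‖b n i α k‖ ≤ 1) → ∃ e2 A : ℝ, 0 < e2 ∧ e2 ≤ 1 / 4 ∧ 0 ≤ A ∧ ∀ᵐ w ∂(gm L), ‖w‖ ≤ Bd →
      ∃ N₁ : ℕ, ∀ N : ℕ, N₁ ≤ N → ∀ n : ℕ, ∀ i, ∀ r < 2, (2 : ℝ) ^ (n + r) ≤ ((2 : ℝ) ^ N) ^ (1 / 2 + e2) →
        HasW H₀ J (n + r) (b n i) (((2 : ℝ) ^ N * 2 ^ n) ^ (-(1 / 2) : ℝ)) (2 ^ N)
          (A * 2 ^ N * ((2 : ℝ) ^ (n + r)) ^ (3 * J - 1 / 40 : ℝ)) w := by
  classical
  obtain ⟨δ, hδ, hδ4, hsm⟩ := small J hJ
  refine ⟨⌈2 / δ + 8⌉₊ + 2 * J, ?_⟩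
  intro L hL H₀ h0 hp Bd nT b hbc hb1
  have hfin : IsFiniteMeasure (gm L) := ⟨by rw [gm_univ]; exact ENNReal.one_lt_top⟩
  have hLJ : 2 * J ≤ L := by omega
  have hL6 : 6 ≤ L := by omega
  have hLδ : 2 / δ + 8 ≤ (L : ℝ) := by
    have h1 := Nat.le_ceil (2 / δ + 8)
    have h2 : ((⌈2 / δ + 8⌉₊ : ℕ) : ℝ) ≤ (L : ℝ) := by exact_mod_cast (by omega : ⌈2 / δ + 8⌉₊ ≤ L)
    exact h1.trans h2
  have hJr : (3 : ℝ) ≤ J := by exact_mod_cast hJ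
  obtain ⟨e1, he1⟩ : ∃ e1 : ℝ, e1 = 1 / (80 * J) := ⟨_, rfl⟩
  have he1p : 0 < e1 := by rw [he1]; positivity
  have he1J : e1 * J = 1 / 80 := by
    rw [he1]
    field_simp
  have he1s : e1 ≤ 1 / 240 := by nlinarith
  obtain ⟨Cs, hCs, hsm⟩ := hsm (L := L) hLJ h0
  obtain ⟨Cl, x₀, hCl, hx₀, hlg⟩ := large (L := L) hL6 h0
  obtain ⟨ek, Ck, R₁, hek, hek4, hCk, hR₁, hkey⟩ := key2 hδ (by linarith) he1p (by linarith) hLδ h0 hp Bd
  obtain ⟨N₂, hN₂⟩ := bc_pow R₁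
  obtain ⟨N₃, hN₃⟩ := bc_rpow hδ x₀
  set N₀ : ℕ := max N₂ N₃ with hN₀
  set e2 : ℝ := min ek (1 / 100) with he2
  have he2p : 0 < e2 := lt_min hek (by norm_num)
  have he2k : e2 ≤ ek := min_le_left _ _
  have he2c : e2 ≤ 1 / 100 := min_le_right _ _
  set A : ℝ := 20 ^ (2 * J) * (Cs + 1) with hA
  have hA0 : 0 ≤ A := by positivity
  set q : ℝ := (2 : ℝ) ^ (-(δ * e1)) with hq
  set C' : ℝ := Cs + Cl + Ck with hC'
  have hqN : ∀ N : ℕ, q ^ N = ((2 : ℝ) ^ N) ^ (-(δ * e1)) := by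
    intro N
    rw [hq, ← Real.rpow_natCast ((2 : ℝ) ^ (-(δ * e1))) N, ← Real.rpow_mul (by norm_num), ← Real.rpow_natCast 2 N,
      ← Real.rpow_mul (by norm_num)]
    congr 1
    ring
  have hex : ∀ (N n : ℕ) (i : Fin nT) (r : Fin 2), ∃ E : Set ((Fin L → ℝ) × (Fin L → ℝ)),
      (gm L).real E ≤ C' * q ^ N ∧ (N₀ ≤ N → (2 : ℝ) ^ (n + (r : ℕ)) ≤ ((2 : ℝ) ^ N) ^ (1 / 2 + e2) → ∀ w ∉ E, ‖w‖ ≤ Bd →
        HasW H₀ J (n + (r : ℕ)) (b n i) (((2 : ℝ) ^ N * 2 ^ n) ^ (-(1 / 2) : ℝ)) (2 ^ N)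
          (A * 2 ^ N * ((2 : ℝ) ^ (n + (r : ℕ))) ^ (3 * J - 1 / 40 : ℝ)) w) := by
    intro N n i r
    have hβ : 0 < ((2 : ℝ) ^ N * 2 ^ n) ^ (-(1 / 2) : ℝ) := by positivity
    have hN1 : (1 : ℝ) ≤ 2 ^ N := one_le_pow₀ (by norm_num)
    have hNp : (0 : ℝ) < 2 ^ N := by positivity
    obtain ⟨β, hβe⟩ : ∃ β : ℝ, β = ((2 : ℝ) ^ N * 2 ^ n) ^ (-(1 / 2) : ℝ) := ⟨_, rfl⟩
    have hβ2 := bc_beta N n r
    rw [← hβe] at hβ hβ2 ⊢
    obtain ⟨n', hn'⟩ : ∃ n' : ℕ, n' = n + (r : ℕ) := ⟨_, rfl⟩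
    rw [← hn'] at hβ2 ⊢
    have hx1 : (1 : ℝ) ≤ 2 ^ n' := one_le_pow₀ (by norm_num)
    have hx0 : (0 : ℝ) < 2 ^ n' := by positivity
    have hqp : 0 ≤ q ^ N := by rw [hqN]; positivity
    by_cases h : N₀ ≤ N ∧ (2 : ℝ) ^ n' ≤ ((2 : ℝ) ^ N) ^ (1 / 2 + e2)
    swap
    · refine ⟨∅, ?_, fun h1 h2 => absurd ⟨h1, h2⟩ h⟩
      rw [measureReal_empty]
      positivity
    obtain ⟨hN, hup⟩ := h
    have hNR : R₁ ≤ 2 ^ N := hN₂.trans (pow_le_pow_right₀ (by norm_num) ((le_max_left _ _).trans hN))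
    have hNx : x₀ ≤ ((2 : ℝ) ^ N) ^ δ := hN₃ N ((le_max_right _ _).trans hN)
    by_cases hc : (2 : ℝ) ^ n' ≤ ((2 : ℝ) ^ N) ^ δ
    · -- small blocks
      obtain ⟨hM1, E, hE1, hE2⟩ := hsm (2 ^ N) n' hN1 hc β hβ (b n i) (hbc n i) (hb1 n i)
      refine ⟨E, hE1.trans ?_, fun _ _ w hw _ => ?_⟩
      · have h1 : ((2 : ℝ) ^ N) ^ (-(1 / 4) : ℝ) ≤ q ^ N := by
          rw [hqN]
          exact Real.rpow_le_rpow_of_exponent_le hN1 (by nlinarith)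
        calc Cs * ((2 : ℝ) ^ N) ^ (-(1 / 4) : ℝ) ≤ Cs * q ^ N := mul_le_mul_of_nonneg_left h1 hCs.le
          _ ≤ C' * q ^ N := mul_le_mul_of_nonneg_right (by rw [hC']; linarith) hqp
      · refine ⟨fun R => 20 ^ (2 * J) * ∫ α in gd1, k0 β α * Maj J (Mx n') 22 (Hw H₀ w) n' (b n i α) R α, ?_, ?_, ?_, ?_⟩
        · exact continuous_const.mul (majInt_cont J (Mx n') 22 n' h0 hβ (b n i) (hbc n i) (hb1 n i) w)
        · intro R
          exact mul_nonneg (by positivity) (majInt_nonneg J (Mx n') 22 n' hβ (b n i) (hb1 n i) w R)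
        · intro R _ c
          exact zpow (by omega) hM1 h0 hβ (b n i) (hbc n i) (hb1 n i) w R c
        · rw [integral_const_mul]
          have h1 := hE2 w hw
          have h2 : ((2 : ℝ) ^ n') ^ (3 * J - 1 / 20 : ℝ) ≤ ((2 : ℝ) ^ n') ^ (3 * J - 1 / 40 : ℝ) :=
            Real.rpow_le_rpow_of_exponent_le hx1 (by linarith)
          calc (20 : ℝ) ^ (2 * J) * ∫ R in Icc ((2 : ℝ) ^ N / 2) (4 * 2 ^ N),
                ∫ α in gd1, k0 β α * Maj J (Mx n') 22 (Hw H₀ w) n' (b n i α) R α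
              ≤ 20 ^ (2 * J) * (Cs * 2 ^ N * ((2 : ℝ) ^ n') ^ (3 * J - 1 / 20 : ℝ)) := mul_le_mul_of_nonneg_left h1 (by positivity)
            _ ≤ 20 ^ (2 * J) * ((Cs + 1) * 2 ^ N * ((2 : ℝ) ^ n') ^ (3 * J - 1 / 40 : ℝ)) := by
                refine mul_le_mul_of_nonneg_left ?_ (by positivity)
                refine mul_le_mul ?_ h2 (by positivity) (by positivity)
                exact mul_le_mul_of_nonneg_right (by linarith) hNp.le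
            _ = _ := by rw [hA]; ring
    · -- large blocks
      have hc' : ((2 : ℝ) ^ N) ^ δ ≤ 2 ^ n' := (not_le.1 hc).le
      have hup1 : (2 : ℝ) ^ n' ≤ ((2 : ℝ) ^ N) ^ (51 / 100 : ℝ) :=
        hup.trans (Real.rpow_le_rpow_of_exponent_le hN1 (by linarith))
      have hup2 : (2 : ℝ) ^ n' ≤ ((2 : ℝ) ^ N) ^ (1 / 2 + ek) :=
        hup.trans (Real.rpow_le_rpow_of_exponent_le hN1 (by linarith))
      obtain ⟨hM1, E, hE1, hE2⟩ := hlg (2 ^ N) n' hN1 (hNx.trans hc') hup1 β hβ (b n i) (hbc n i) (hb1 n i)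
      obtain ⟨E', hE1', hE2'⟩ := hkey (2 ^ N) hNR n' hc' hup2 β hβ hβ2 (b n i) (hbc n i) (hb1 n i)
      refine ⟨E ∪ E', (measureReal_union_le _ _).trans ?_, fun _ _ w hw hwB => ?_⟩
      · have h0N : (0 : ℝ) < ((2 : ℝ) ^ N) ^ δ := by positivity
        have h1 : ((2 : ℝ) ^ n') ^ (-(1 / 20) : ℝ) ≤ q ^ N := by
          rw [hqN]
          calc ((2 : ℝ) ^ n') ^ (-(1 / 20) : ℝ) ≤ (((2 : ℝ) ^ N) ^ δ) ^ (-(1 / 20) : ℝ) :=
                Real.rpow_le_rpow_of_nonpos h0N hc' (by norm_num)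
            _ = ((2 : ℝ) ^ N) ^ (δ * (-(1 / 20))) := by rw [← Real.rpow_mul hNp.le]
            _ ≤ _ := Real.rpow_le_rpow_of_exponent_le hN1 (by nlinarith)
        have h2 : ((2 : ℝ) ^ n') ^ (-e1) ≤ q ^ N := by
          rw [hqN]
          calc ((2 : ℝ) ^ n') ^ (-e1) ≤ (((2 : ℝ) ^ N) ^ δ) ^ (-e1) :=
                Real.rpow_le_rpow_of_nonpos h0N hc' (by linarith)
            _ = ((2 : ℝ) ^ N) ^ (-(δ * e1)) := by
                rw [← Real.rpow_mul hNp.le]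
                congr 1
                ring
        calc (gm L).real E + (gm L).real E' ≤ Cl * ((2 : ℝ) ^ n') ^ (-(1 / 20) : ℝ) + Ck * ((2 : ℝ) ^ n') ^ (-e1) :=
              add_le_add hE1 hE1'
          _ ≤ Cl * q ^ N + Ck * q ^ N :=
              add_le_add (mul_le_mul_of_nonneg_left h1 hCl.le) (mul_le_mul_of_nonneg_left h2 hCk.le)
          _ ≤ C' * q ^ N := by
              rw [hC']
              nlinarith [mul_nonneg hCs.le hqp]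
      · have hwE : w ∉ E := fun h => hw (Or.inl h)
        have hwE' : w ∉ E' := fun h => hw (Or.inr h)
        obtain ⟨P, hP⟩ : ∃ P : ℝ, P = (((2 : ℝ) ^ n') ^ (3 / 2 + e1)) ^ (2 * J - 6) := ⟨_, rfl⟩
        have hP0 : 0 ≤ P := by rw [hP]; positivity
        refine ⟨fun R => P * (20 ^ (2 * 3) * ∫ α in gd1, k0 β α * Maj 3 (Mx n') 22 (Hw H₀ w) n' (b n i α) R α), ?_, ?_, ?_, ?_⟩
        · exact continuous_const.mul (continuous_const.mul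
            (majInt_cont 3 (Mx n') 22 n' h0 hβ (b n i) (hbc n i) (hb1 n i) w))
        · intro R
          exact mul_nonneg hP0 (mul_nonneg (by positivity)
            (majInt_nonneg 3 (Mx n') 22 n' hβ (b n i) (hb1 n i) w R))
        · intro R hR c
          have h1 := hE2' w hwE' hwB R hR c
          have h2 := zpow (J := 3) (M := Mx n') (m := 22) (n := n') (by norm_num) hM1 h0 hβ (b n i) (hbc n i) (hb1 n i) w R c
          have h3 : 0 ≤ ∫ α in gd1, k0 β α * ‖Sc (Hw H₀ w) (blk n') (b n i α) R α c‖ :=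
            setIntegral_nonneg gd1_meas fun α _ => mul_nonneg (k0_nonneg' hβ α) (norm_nonneg _)
          have h4 : (∫ α in gd1, k0 β α * ‖Sc (Hw H₀ w) (blk n') (b n i α) R α c‖) ^ (2 * J - 6) ≤ P := by
            rw [hP]
            exact pow_le_pow_left₀ h3 h1 _
          have h5 : (∫ α in gd1, k0 β α * ‖Sc (Hw H₀ w) (blk n') (b n i α) R α c‖) ^ (2 * J) =
              (∫ α in gd1, k0 β α * ‖Sc (Hw H₀ w) (blk n') (b n i α) R α c‖) ^ (2 * J - 6) *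
              (∫ α in gd1, k0 β α * ‖Sc (Hw H₀ w) (blk n') (b n i α) R α c‖) ^ (2 * 3) := by
            rw [← pow_add]
            congr 1
            omega
          rw [h5]
          exact mul_le_mul h4 h2 (pow_nonneg h3 _) hP0
        · rw [integral_const_mul, integral_const_mul]
          have h1 := hE2 w hwE
          have h2 : P * (((2 : ℝ) ^ n') ^ (9 - 1 / 20 : ℝ)) ≤ ((2 : ℝ) ^ n') ^ (3 * J - 1 / 40 : ℝ) := by
            rw [hP, ← Real.rpow_natCast, ← Real.rpow_mul hx0.le, ← Real.rpow_add hx0]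
            apply Real.rpow_le_rpow_of_exponent_le hx1
            rw [Nat.cast_sub (by omega)]
            push_cast
            nlinarith
          have h3 : (20 : ℝ) ^ (2 * 3) ≤ 20 ^ (2 * J) := pow_le_pow_right₀ (by norm_num) (by omega)
          calc P * (20 ^ (2 * 3) * ∫ R in Icc ((2 : ℝ) ^ N / 2) (4 * 2 ^ N),
                ∫ α in gd1, k0 β α * Maj 3 (Mx n') 22 (Hw H₀ w) n' (b n i α) R α)
              ≤ P * (20 ^ (2 * 3) * (2 ^ N * ((2 : ℝ) ^ n') ^ (9 - 1 / 20 : ℝ))) :=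
                mul_le_mul_of_nonneg_left (mul_le_mul_of_nonneg_left h1 (by positivity)) hP0
            _ = 20 ^ (2 * 3) * 2 ^ N * (P * ((2 : ℝ) ^ n') ^ (9 - 1 / 20 : ℝ)) := by ring
            _ ≤ 20 ^ (2 * J) * 2 ^ N * ((2 : ℝ) ^ n') ^ (3 * J - 1 / 40 : ℝ) := by
                refine mul_le_mul (mul_le_mul_of_nonneg_right h3 hNp.le) h2 (by positivity) (by positivity)
            _ ≤ A * 2 ^ N * ((2 : ℝ) ^ n') ^ (3 * J - 1 / 40 : ℝ) := by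
                refine mul_le_mul_of_nonneg_right (mul_le_mul_of_nonneg_right ?_ hNp.le) (by positivity)
                rw [hA]
                nlinarith [pow_pos (show (0 : ℝ) < 20 by norm_num) (2 * J)]
  choose E hE1 hE2 using hex
  set bad : ℕ → Set ((Fin L → ℝ) × (Fin L → ℝ)) := fun N =>
    ⋃ n ∈ Finset.range (N + 1), ⋃ i ∈ (Finset.univ : Finset (Fin nT)), ⋃ r ∈ (Finset.univ : Finset (Fin 2)), E N n i r with hbad
  have hq0 : (0 : ℝ) ≤ q := by positivity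
  have hq1 : q < 1 := Real.rpow_lt_one_of_one_lt_of_neg (by norm_num) (by nlinarith [mul_pos hδ he1p])
  have hC'0 : 0 ≤ C' := by positivity
  have hmeas : ∀ N, (gm L).real (bad N) ≤ ((N : ℝ) + 1) * ((nT * 2 * C') * q ^ N) := by
    intro N
    have h0' : 0 ≤ C' * q ^ N := by positivity
    refine (measureReal_biUnion_finset_le _ _).trans ?_
    have h1 : ∀ n ∈ Finset.range (N + 1), (gm L).real (⋃ i ∈ (Finset.univ : Finset (Fin nT)),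
        ⋃ r ∈ (Finset.univ : Finset (Fin 2)), E N n i r) ≤ nT * (2 * (C' * q ^ N)) := by
      intro n _
      refine (measureReal_biUnion_finset_le _ _).trans ?_
      refine (Finset.sum_le_card_nsmul _ _ (2 * (C' * q ^ N)) fun i _ => ?_).trans (le_of_eq ?_)
      · refine (measureReal_biUnion_finset_le _ _).trans ?_
        refine (Finset.sum_le_card_nsmul _ _ (C' * q ^ N) fun r _ => hE1 N n i r).trans (le_of_eq ?_)
        rw [Finset.card_univ, Fintype.card_fin, nsmul_eq_mul]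
        norm_num
      · rw [Finset.card_univ, Fintype.card_fin, nsmul_eq_mul]
    refine (Finset.sum_le_card_nsmul _ _ _ h1).trans (le_of_eq ?_)
    rw [Finset.card_range, nsmul_eq_mul]
    push_cast
    ring
  have hbcan := bc_ae (μ := gm L) bad _ (bc_summable hq0 hq1 (nT * 2 * C')) hmeas
  refine ⟨e2, A, he2p, by linarith, hA0, ?_⟩
  filter_upwards [hbcan] with w hw hwB
  obtain ⟨N₁, hN₁⟩ := eventually_atTop.1 hw
  refine ⟨max N₀ N₁, ?_⟩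
  intro N hN n i r hr h2
  have hN0 : N₀ ≤ N := (le_max_left _ _).trans hN
  have hNN : N₁ ≤ N := (le_max_right _ _).trans hN
  have hnN : n ∈ Finset.range (N + 1) := by
    rw [Finset.mem_range]
    have h3 : (2 : ℝ) ^ (n + r) ≤ 2 ^ N := by
      refine h2.trans ?_
      calc ((2 : ℝ) ^ N) ^ (1 / 2 + e2) ≤ ((2 : ℝ) ^ N) ^ (1 : ℝ) :=
            Real.rpow_le_rpow_of_exponent_le (one_le_pow₀ (by norm_num)) (by linarith)
        _ = 2 ^ N := Real.rpow_one _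
    have h4 : n + r ≤ N := (pow_le_pow_iff_right₀ (by norm_num : (1 : ℝ) < 2)).1 h3
    omega
  have hnot : w ∉ E N n i ⟨r, hr⟩ := by
    intro hcon
    apply hN₁ N hNN
    simp only [hbad, mem_iUnion]
    exact ⟨n, hnN, i, Finset.mem_univ _, ⟨r, hr⟩, Finset.mem_univ _, hcon⟩
  exact hE2 N n i ⟨r, hr⟩ hN0 h2 w hnot hwB

end Pool.Agent.Helper60.MM
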